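import Pool.Agent.L0h22.UY.Stm
import Pool.Agent.L0h22.SL.SSel

/-!
For the typical sets almost all the matrices have small corank.
-/

set_option autoImplicit false
set_option linter.all false

open Polynomial IsDedekindDomain Filter
open scoped Classical

namespace Pool.Agent.L0h29.UY

open Pool.Agent.L0h22.AS Pool.Agent.L0h22.TC Pool.Agent.L0h22.SL Pool.Agent.L0h22.UY
open Pool.Agent.TH115.GD (plK mem_plK exists_gen valK_one valK_lt Comp CompInf vInf vInf_poly)

theorem num (ε : ℝ) (hε : 0 < ε) :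
    ∃ m₀ : ℕ, ∀ m : ℕ, m₀ ≤ m → (51 + 50 * (m : ℝ)) ≤ ε * 8 ^ m := by
  have h1 : Tendsto (fun m : ℕ => (51 + 50 * (m : ℝ)) * (1 / 8) ^ m) atTop (nhds 0) := by
    have h2 := tendsto_pow_atTop_nhds_zero_of_lt_one (r := (1 / 8 : ℝ)) (by norm_num) (by norm_num)
    have h3 := tendsto_self_mul_const_pow_of_lt_one (r := (1 / 8 : ℝ)) (by norm_num) (by norm_num)
    have h4 := (h2.const_mul 51).add (h3.const_mul 50)
    simp only [mul_zero, add_zero] at h4
    refine h4.congr fun m => ?_
    ring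
  obtain ⟨m₀, hm₀⟩ := eventually_atTop.1 (h1.eventually (gt_mem_nhds hε))
  refine ⟨m₀, fun m hm => ?_⟩
  have h6 := (hm₀ m hm).le
  have h7 : (0 : ℝ) < 8 ^ m := by positivity
  calc (51 + 50 * (m : ℝ)) = (51 + 50 * (m : ℝ)) * (1 / 8) ^ m * 8 ^ m := by
        rw [mul_assoc, ← mul_pow]
        norm_num
    _ ≤ ε * 8 ^ m := mul_le_mul_of_nonneg_right h6 h7.le

section

variable {k : Type} [Field k] [Finite k]

/-- The polynomials of degree less than the one of `t`. -/
abbrev VV {k : Type} [Field k] {S : Finset k[X]} (t : S) : Type :=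
  degreeLT k (t : k[X]).natDegree

noncomputable instance fintypeVV {S : Finset k[X]} (t : S) : Fintype (VV t) :=
  have : Finite (VV t) := Finite.of_equiv _ (degreeLTEquiv k (t : k[X]).natDegree).symm.toEquiv
  Fintype.ofFinite _

theorem card_VV {S : Finset k[X]} (t : S) :
    Fintype.card (VV t) = Nat.card k ^ (t : k[X]).natDegree := by
  rw [← Nat.card_eq_fintype_card, Nat.card_congr (degreeLTEquiv k _).toEquiv, Nat.card_fun,
    Nat.card_fin]

variable (K : Type) [Field K] [Algebra k[X] K] [IsFractionRing k[X] K]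

/-- The entries of the matrix. -/
noncomputable def XX (h2 : (2 : k) = 0) {S : Finset k[X]} (hP : Pl S) (s t : S) :
    VV t →+ ZMod 2 where
  toFun v := tv K (hP.irr s s.2) (hP.mon s s.2)
    (algebraMap k[X] K (v : k[X]) / algebraMap k[X] K (t : k[X]))
  map_zero' := by
    rw [ZeroMemClass.coe_zero, map_zero, zero_div, tv_zero]
  map_add' v w := by
    rw [← tv_add h2, ← add_div, ← map_add]
    rfl

/-- The parameters on `S`. -/
noncomputable def phi {S : Finset k[X]} (R : k[X] → k[X]) (t : S) : VV t :=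
  if h : R t ∈ degreeLT k (t : k[X]).natDegree then ⟨R t, h⟩ else 0

variable {S₀ : Finset k[X]} {R₀ : k[X] → k[X]} {N : ℕ}

theorem phi_val {S : Finset k[X]} (hS : S ∈ Sub k S₀ N) {R : k[X] → k[X]} (hR : R ∈ Om S₀ R₀ N)
    (t : S) : ((phi R t : VV t) : k[X]) = R t := by
  have h : R t ∈ degreeLT k (t : k[X]).natDegree := by
    unfold Om at hR
    rw [mem_Box] at hR
    have h1 := hR.1 t (sub_P hS t.2)
    rw [mem_Lt] at h1
    rw [mem_degreeLT]
    exact lt_of_le_of_lt degree_le_natDegree (by exact_mod_cast h1)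
  unfold phi
  rw [dif_pos h]

/-- The matrix of the parameters. -/
noncomputable def MT (h2 : (2 : k) = 0) {S : Finset k[X]} (hP : Pl S) (β : K)
    (v : ∀ t : S, VV t) : Matrix S S (ZMod 2) :=
  Matrix.of fun s t => if s = t then tv K (hP.irr s s.2) (hP.mon s s.2) β +
    ∑ u ∈ Finset.univ.erase s, XX K h2 hP s u (v u) else XX K h2 hP s t (v t)

theorem MD_eq (h2 : (2 : k) = 0) {S : Finset k[X]} (hP : Pl S) (β : K) (hS : S ∈ Sub k S₀ N)
    {R : k[X] → k[X]} (hR : R ∈ Om S₀ R₀ N) : MD K hP β R = MT K h2 hP β (phi R) := by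
  ext s t
  have hX : ∀ u : S, XX K h2 hP s u (phi R u) = tv K (hP.irr s s.2) (hP.mon s s.2)
      (algebraMap k[X] K (R u) / algebraMap k[X] K (u : k[X])) := by
    intro u
    show tv K (hP.irr s s.2) (hP.mon s s.2)
      (algebraMap k[X] K ((phi R u : VV u) : k[X]) / algebraMap k[X] K (u : k[X])) = _
    rw [phi_val hS hR]
  unfold MD MT
  rw [Matrix.of_apply]
  by_cases h : s = t
  · rw [if_pos h, if_pos h, tv_add h2, tv_sum h2, sum_erase_sub (S := S)
      (fun σ => tv K (hP.irr s s.2) (hP.mon s s.2)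
        (algebraMap k[X] K (R σ) / algebraMap k[X] K σ)) s]
    congr 1
    exact Finset.sum_congr rfl fun u _ => (hX u).symm
  · rw [if_neg h, if_neg h, hX]

end

theorem t_KERB (hK : S_KERA) : S_KER := by
  intro k K _ _ _ _ _ h2 S₀ hS₀ ε hε
  obtain ⟨m₀, hm₀⟩ := num ε hε
  refine ⟨100 * m₀ + 2, fun R₀ N S hS hT hP β => ?_⟩
  obtain ⟨hn, hw⟩ := hT
  set n := S.card with hn'
  set m := n / 100 with hm
  have hmm : m₀ ≤ m := by omega
  have hn2 : 2 ≤ n := by omega
  -- the order
  obtain ⟨e⟩ : Nonempty (S ≃ Fin n) := ⟨S.equivFin⟩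
  set o : S → ℕ := fun s => (s : k[X]).natDegree * n + (e s : ℕ) with ho
  have hoi : Function.Injective o := by
    intro s t h
    have h1 : (o s) % n = (o t) % n := by rw [h]
    simp only [ho, Nat.mul_add_mod_self_right, Nat.mod_eq_of_lt (e s).isLt,
      Nat.mod_eq_of_lt (e t).isLt] at h1
    exact e.injective (Fin.ext h1)
  have hod : ∀ s t : S, o s ≤ o t → (s : k[X]).natDegree ≤ (t : k[X]).natDegree := by
    intro s t h
    have h1 := (e t).isLt
    by_contra hc
    push Not at hc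
    have h3 : ((t : k[X]).natDegree + 1) * n ≤ (s : k[X]).natDegree * n :=
      Nat.mul_le_mul_right n hc
    have h4 : (s : k[X]).natDegree * n + (e s : ℕ) ≤ (t : k[X]).natDegree * n + (e t : ℕ) := h
    rw [add_mul, one_mul] at h3
    omega
  set J : S → Finset S := fun t => Finset.univ.filter fun s : S => s ≠ t ∧
    n * (s : k[X]).natDegree ≤ (t : k[X]).natDegree with hJ
  have hJs : ∀ t (w : S → ZMod 2), ∃ v : VV t, ∀ s ∈ J t, XX K h2 hP s t v = w s := by
    intro t w
    set T : Finset k[X] := (J t).image (fun s : S => (s : k[X])) with hTd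
    have hTS : ∀ π ∈ T, ∃ s : S, s ∈ J t ∧ (s : k[X]) = π := by
      intro π hπ
      obtain ⟨s, h1, h3⟩ := Finset.mem_image.1 hπ
      exact ⟨s, h1, h3⟩
    have hPT : Pl T := by
      refine ⟨fun π hπ => ?_, fun π hπ => ?_⟩
      · obtain ⟨s, -, rfl⟩ := hTS π hπ
        exact hP.irr s s.2
      · obtain ⟨s, -, rfl⟩ := hTS π hπ
        exact hP.mon s s.2
    have hnd : ∀ π ∈ T, ¬ π ∣ (t : k[X]) := by
      intro π hπ hd
      obtain ⟨s, h1, rfl⟩ := hTS π hπ
      have h3 := (Finset.mem_filter.1 h1).2.1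
      exact h3 (Subtype.ext (eq_of_monic_of_associated (hP.mon s s.2) (hP.mon t t.2)
        ((hP.irr s s.2).associated_of_dvd (hP.irr t t.2) hd)))
    obtain ⟨r, hr, hrv⟩ := crt_tv (K := K) h2 hPT hnd
      (fun π => if h : π ∈ S then w ⟨π, h⟩ else 0)
    have hsum : ∑ π ∈ T, π.natDegree ≤ (t : k[X]).natDegree := by
      have h1 : n * ∑ π ∈ T, π.natDegree ≤ n * (t : k[X]).natDegree := by
        rw [Finset.mul_sum]
        calc ∑ π ∈ T, n * π.natDegree ≤ ∑ _π ∈ T, (t : k[X]).natDegree := by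
              refine Finset.sum_le_sum fun π hπ => ?_
              obtain ⟨s, h1, rfl⟩ := hTS π hπ
              exact (Finset.mem_filter.1 h1).2.2
          _ = T.card * (t : k[X]).natDegree := by rw [Finset.sum_const, smul_eq_mul]
          _ ≤ n * (t : k[X]).natDegree := by
              refine Nat.mul_le_mul_right _ ?_
              refine Finset.card_le_card fun π hπ => ?_
              obtain ⟨s, -, rfl⟩ := hTS π hπ
              exact s.2
      exact Nat.le_of_mul_le_mul_left h1 (by omega)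
    refine ⟨⟨r, mem_degreeLT.2 (lt_of_lt_of_le hr (by exact_mod_cast hsum))⟩, fun s hs => ?_⟩
    have h1 := hrv s (Finset.mem_image.2 ⟨s, hs, rfl⟩)
    rw [dif_pos s.2] at h1
    exact h1
  have hJW : ∀ t, (Finset.univ.filter fun s => o s ≤ o t ∧ s ∉ J t).card ≤ m := by
    intro t
    have h1 := hw t t.2
    have h3 : (Finset.univ.filter fun s => o s ≤ o t ∧ s ∉ J t).card ≤
        (S.filter fun s => s.natDegree ≤ (t : k[X]).natDegree ∧
          (t : k[X]).natDegree < n * s.natDegree).card := by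
      refine Finset.card_le_card_of_injOn (fun s : S => (s : k[X])) ?_
        Subtype.val_injective.injOn
      intro s hs
      have hs' := (Finset.mem_filter.1 (Finset.mem_coe.1 hs)).2
      refine Finset.mem_coe.2 (Finset.mem_filter.2 ⟨s.2, hod s t hs'.1, ?_⟩)
      by_cases hst : s = t
      · subst hst
        have h4 := (hP.irr s s.2).natDegree_pos
        show (s : k[X]).natDegree < n * (s : k[X]).natDegree
        nlinarith
      · by_contra hc
        push Not at hc
        exact hs'.2 (Finset.mem_filter.2 ⟨Finset.mem_univ _, hst, hc⟩)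
    omega
  have hcS : Fintype.card S = n := Fintype.card_coe S
  have key : ∑ v : (∀ t : S, VV t), (Finset.univ.filter fun ε' : S → ZMod 2 =>
      (MT K h2 hP β v).mulVec ε' = 0).card ≤ (2 + n * 4 ^ m) * ∏ t : S, Fintype.card (VV t) := by
    have h := hK S o (fun t => VV t) (XX K h2 hP)
      (fun s => tv K (hP.irr s s.2) (hP.mon s s.2) β)
      J m hoi (fun t h => (Finset.mem_filter.1 h).2.1 rfl) hJs (fun t => by convert hJW t)
    rw [hcS] at h
    refine le_trans (le_of_eq ?_) h
    have hM : ∀ v : (∀ t : S, VV t), MT K h2 hP β v = Matrix.of fun (s t : S) => if s = t then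
        tv K (hP.irr s s.2) (hP.mon s s.2) β + ∑ u ∈ Finset.univ.erase s, XX K h2 hP s u (v u)
        else XX K h2 hP s t (v t) := fun v => rfl
    simp only [hM]
    congr!
  set B : Finset (∀ t : S, VV t) := Finset.univ.filter fun v =>
    n < 20 * (n - (MT K h2 hP β v).rank) with hB
  have hker : ∀ v : (∀ t : S, VV t), (Finset.univ.filter fun ε' : S → ZMod 2 =>
      (MT K h2 hP β v).mulVec ε' = 0).card * 2 ^ (MT K h2 hP β v).rank = 2 ^ n := by
    intro v
    have h1 := ker_card' h2 (MT K h2 hP β v)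
    rw [hcS, ← Set.ncard_coe_finset] at *
    convert h1 using 3
    ext ε'
    simp
  have hB1 : B.card * 2 ^ (n / 20 + 1) ≤ (2 + n * 4 ^ m) * ∏ t : S, Fintype.card (VV t) := by
    refine le_trans ?_ key
    calc B.card * 2 ^ (n / 20 + 1) = ∑ _v ∈ B, 2 ^ (n / 20 + 1) := by
          rw [Finset.sum_const, smul_eq_mul]
      _ ≤ ∑ v ∈ B, (Finset.univ.filter fun ε' : S → ZMod 2 =>
            (MT K h2 hP β v).mulVec ε' = 0).card := by
          refine Finset.sum_le_sum fun v hv => ?_
          have h1 := (Finset.mem_filter.1 hv).2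
          have h3 := hker v
          have h4 : (MT K h2 hP β v).rank ≤ n := by
            have := Matrix.rank_le_card_width (MT K h2 hP β v)
            rwa [hcS] at this
          have h5 : 2 ^ (n / 20 + 1) * 2 ^ (MT K h2 hP β v).rank ≤ 2 ^ n := by
            rw [← pow_add]
            exact Nat.pow_le_pow_right (by norm_num) (by omega)
          rw [← h3] at h5
          exact Nat.le_of_mul_le_mul_right h5 (by positivity)
      _ ≤ ∑ v : (∀ t : S, VV t), (Finset.univ.filter fun ε' : S → ZMod 2 =>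
            (MT K h2 hP β v).mulVec ε' = 0).card :=
          Finset.sum_le_sum_of_subset (Finset.filter_subset _ _)
  have hq : 1 < qq k := q_gt (k := k)
  have hV : ((∏ t : S, Fintype.card (VV t) : ℕ) : ℝ) = qq k ^ N := by
    rw [Nat.cast_prod]
    have h1 : ∀ t : S, ((Fintype.card (VV t) : ℕ) : ℝ) = qq k ^ (t : k[X]).natDegree := by
      intro t
      rw [card_VV, Nat.cast_pow]
      rfl
    rw [Finset.prod_congr rfl fun t _ => h1 t, Finset.prod_pow_eq_pow_sum]
    congr 1
    rw [Finset.sum_coe_sort S (fun t => t.natDegree)]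
    exact (mem_Sub.1 hS).2.2
  have hB2 : (B.card : ℝ) ≤ ε * qq k ^ N := by
    have h1 : (B.card : ℝ) * 2 ^ (n / 20 + 1) ≤ (2 + n * 4 ^ m) * qq k ^ N := by
      rw [← hV]
      exact_mod_cast hB1
    have h3 : (2 : ℝ) * 32 ^ m ≤ 2 ^ (n / 20 + 1) := by
      have h4 : (2 : ℝ) * 32 ^ m = 2 ^ (5 * m + 1) := by
        rw [pow_succ, pow_mul]
        norm_num
        ring
      rw [h4]
      exact pow_le_pow_right₀ (by norm_num) (by omega)
    have h5 : (2 + (n : ℝ) * 4 ^ m) ≤ ε * (2 * 32 ^ m) := by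
      have h6 : (n : ℝ) ≤ 100 * m + 99 := by
        have : n ≤ 100 * m + 99 := by omega
        exact_mod_cast this
      have h7 := hm₀ m hmm
      have h8 : (1 : ℝ) ≤ 4 ^ m := one_le_pow₀ (by norm_num)
      have h9 : (32 : ℝ) ^ m = 4 ^ m * 8 ^ m := by
        rw [← mul_pow]
        norm_num
      rw [h9]
      calc (2 + (n : ℝ) * 4 ^ m) ≤ 2 * 4 ^ m + (100 * m + 99) * 4 ^ m := by
            have := mul_le_mul_of_nonneg_right h6 (by positivity : (0 : ℝ) ≤ 4 ^ m)
            linarith
        _ ≤ 2 * 4 ^ m * (51 + 50 * (m : ℝ)) := by nlinarith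
        _ ≤ 2 * 4 ^ m * (ε * 8 ^ m) := mul_le_mul_of_nonneg_left h7 (by positivity)
        _ = _ := by ring
    have h10 : (B.card : ℝ) * (2 * 32 ^ m) ≤ (ε * qq k ^ N) * (2 * 32 ^ m) := by
      calc (B.card : ℝ) * (2 * 32 ^ m) ≤ (B.card : ℝ) * 2 ^ (n / 20 + 1) :=
            mul_le_mul_of_nonneg_left h3 (Nat.cast_nonneg _)
        _ ≤ (2 + n * 4 ^ m) * qq k ^ N := h1
        _ ≤ (ε * (2 * 32 ^ m)) * qq k ^ N := mul_le_mul_of_nonneg_right h5 (by positivity)
        _ = _ := by ring
    exact le_of_mul_le_mul_right h10 (by positivity)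
  -- the fibres
  have hfib : ∀ v : (∀ t : S, VV t),
      ((((Om S₀ R₀ N).filter fun R => S.card < 20 * (S.card - (MD K hP β R).rank)).filter
        fun R => (phi R : ∀ t : S, VV t) = v).card : ℝ) * qq k ^ N ≤ (Om S₀ R₀ N).card := by
    intro v
    by_cases hne : (((Om S₀ R₀ N).filter fun R => S.card < 20 * (S.card -
        (MD K hP β R).rank)).filter fun R => (phi R : ∀ t : S, VV t) = v).Nonempty
    · obtain ⟨R, hR⟩ := hne
      obtain ⟨hR1, hR2⟩ := Finset.mem_filter.1 hR
      have hR3 := (Finset.mem_filter.1 hR1).1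
      rw [← card_fix (R₀ := R₀) hS hR3]
      refine mul_le_mul_of_nonneg_right ?_ (by positivity)
      refine Nat.cast_le.2 (Finset.card_le_card fun R' hR' => ?_)
      obtain ⟨hR4, hR5⟩ := Finset.mem_filter.1 hR'
      have hR6 := (Finset.mem_filter.1 hR4).1
      refine Finset.mem_filter.2 ⟨hR6, fun ρ hρ => ?_⟩
      have h1 : (phi R' : ∀ t : S, VV t) = phi R := by rw [hR5, hR2]
      have h3 := congrArg (fun f : (∀ t : S, VV t) => ((f ⟨ρ, hρ⟩ : VV _) : k[X])) h1
      simp only [phi_val hS hR6, phi_val hS hR3] at h3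
      exact h3
    · rw [Finset.not_nonempty_iff_eq_empty.1 hne, Finset.card_empty, Nat.cast_zero, zero_mul]
      exact Nat.cast_nonneg _
  have hcount : ((Om S₀ R₀ N).filter fun R => S.card < 20 * (S.card - (MD K hP β R).rank)).card =
      ∑ v ∈ B, (((Om S₀ R₀ N).filter fun R => S.card < 20 * (S.card -
        (MD K hP β R).rank)).filter fun R => (phi R : ∀ t : S, VV t) = v).card := by
    refine Finset.card_eq_sum_card_fiberwise fun R hR => ?_
    obtain ⟨hR1, hR2⟩ := Finset.mem_filter.1 (Finset.mem_coe.1 hR)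
    rw [MD_eq K h2 hP β hS hR1] at hR2
    exact Finset.mem_coe.2 (Finset.mem_filter.2 ⟨Finset.mem_univ _, hR2⟩)
  have hqN : 0 < qq k ^ N := by positivity
  refine le_of_mul_le_mul_right ?_ hqN
  rw [hcount, Nat.cast_sum, Finset.sum_mul]
  calc _ ≤ ∑ _v ∈ B, ((Om S₀ R₀ N).card : ℝ) := Finset.sum_le_sum fun v _ => hfib v
    _ = B.card * (Om S₀ R₀ N).card := by rw [Finset.sum_const, nsmul_eq_mul]
    _ ≤ (ε * qq k ^ N) * (Om S₀ R₀ N).card := mul_le_mul_of_nonneg_right hB2 (Nat.cast_nonneg _)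
    _ = _ := by ring

end Pool.Agent.L0h29.UY
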